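import Pool.Agent.Y191.DimGe
import Pool.Agent.Y172.Grow
import Pool.Agent.Y172.Sec

/-!
Lower bounds for the Kodaira dimension from sections with algebraically independent quotients, for
all pairs of a normal projective variety and an effective divisor (no log canonicity is used).
-/

set_option autoImplicit false

open FF Pool.Agent.W602.GT Pool.Agent.W603.LV
open Pool.Agent.Y172 Pool.Agent.Y191 Pool.Agent.W602.Cov Pool.Agent.TH122.AB

namespace Pool.Agent.X325.KG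

variable {K : Type} [Field K] [Algebra ℂ K] {N : ℕ} {y : Fin (N + 1) → K} {n : ℕ}

/-- The general upper bound `h⁰ (m (K_X + Δ) + A) ≤ C m ^ n`. -/
theorem upper_all (hy : NormalModel y) {Δ : Place ℂ K → ℚ}
    (hΔ : Effective y Δ) {Z : Fin n → K} (hZ : IsTranscendenceBasis ℂ Z)
    (D : Fin n → Derivation ℂ K K) (A : Place ℂ K → ℚ) (hA : Effective y A) :
    ∃ C : ℕ, ∀ m : ℕ, 1 ≤ m → ∀ (r : ℕ) (f : Fin r → K), LinearIndependent ℂ f →
      (∀ i, ∃ ω, IsSection y n m (m • Δ + A) ω ∧ ω D = f i) → r ≤ C * m ^ n := by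
  have hess := hy.ess
  have hfd : FiniteDimensional (IntermediateField.adjoin ℂ (Set.range Z)) K := fd_basis hZ
  obtain ⟨S, hS⟩ := sec_fin hy hΔ hA D
  obtain ⟨C, hC⟩ := growth hZ hfd S (fun m => {f | ∃ ω, IsSection y n m (m • Δ + A) ω ∧ ω D = f})
    (by
      intro P
      obtain ⟨C, hC⟩ := sec_all hy hΔ hA D P
      refine ⟨C, ?_⟩
      rintro m hm f ⟨ω, hω, rfl⟩
      exact hC m hm ω hω)
    (by
      rintro P hP m hm f ⟨ω, hω, rfl⟩
      exact hS P hP m hm ω hω)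
  exact ⟨C, fun m hm r f hf h => hC m hm r f hf h⟩

/-- **A lower bound for the Kodaira dimension.** -/
theorem kod_ge (hy : NormalModel y) (hn : Algebra.trdeg ℂ K = n) {Δ : Place ℂ K → ℚ}
    (hΔ : Effective y Δ) {k m0 : ℕ} (hm0 : 1 ≤ m0)
    {ω : Fin (k + 1) → (Fin n → Derivation ℂ K K) → K}
    (hω : ∀ j, IsSection y n m0 (m0 • Δ) (ω j)) {E : Fin n → Derivation ℂ K K}
    (hE : ω 0 E ≠ 0) (hind : AlgebraicIndependent ℂ (fun i : Fin k => ω i.succ E / ω 0 E)) :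
    (k : WithBot ℕ) ≤ kodairaDim y n Δ := by
  have hess := hy.ess
  obtain ⟨x, E', hx, hE'⟩ := exists_crd hn
  exact dims_ge hΔ (crd_frame' hx hE') (a := n) (fun A hA => upper_all hy hΔ hx _ A hA) hm0 hω hE
    hind

/-- The maximal case. -/
theorem kod_big (hy : NormalModel y) (hn : Algebra.trdeg ℂ K = n) {Δ : Place ℂ K → ℚ}
    (hΔ : Effective y Δ) {m0 : ℕ} (hm0 : 1 ≤ m0)
    {ω : Fin (n + 1) → (Fin n → Derivation ℂ K K) → K}
    (hω : ∀ j, IsSection y n m0 (m0 • Δ) (ω j)) {E : Fin n → Derivation ℂ K K}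
    (hE : ω 0 E ≠ 0) (hind : AlgebraicIndependent ℂ (fun i : Fin n => ω i.succ E / ω 0 E)) :
    kodairaDim y n Δ = (n : WithBot ℕ) ∧
      ∀ A, Effective y A → Integral y A → numericalDim y n Δ A = (n : EReal) := by
  have hess := hy.ess
  obtain ⟨x, E', hx, hE'⟩ := exists_crd hn
  exact dims hΔ (crd_frame' hx hE') (fun A hA => upper_all hy hΔ hx _ A hA) hm0 hω hE hind

/-- A nonzero section gives one with an integral multiple. -/
theorem integral_section (hy : NormalModel y) {Δ : Place ℂ K → ℚ}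
    (hΔ : Effective y Δ) {m0 : ℕ} (hm0 : 1 ≤ m0) {ω : (Fin n → Derivation ℂ K K) → K}
    (hω : IsSection y n m0 (m0 • Δ) ω) (hne : ω ≠ 0) :
    ∃ m : ℕ, 1 ≤ m ∧ Integral y (m • Δ) ∧ ∃ ω', IsSection y n m (m • Δ) ω' ∧ ω' ≠ 0 := by
  classical
  let S := hΔ.2.toFinset
  obtain ⟨d0, hd0⟩ : ∃ d0 : ℕ, d0 = ∏ P ∈ S, (Δ P).den := ⟨_, rfl⟩
  have hd : 1 ≤ d0 := by
    rw [hd0]
    exact Nat.pos_of_ne_zero (Finset.prod_ne_zero_iff.2 fun P _ => (Δ P).den_ne_zero)
  refine ⟨d0 * m0, Nat.mul_pos hd hm0, fun P hP => ?_, fun G => ω G ^ d0, ?_, ?_⟩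
  · by_cases h0 : Δ P = 0
    · exact ⟨0, by simp [h0]⟩
    have hPS : P ∈ S := by
      rw [Set.Finite.mem_toFinset]
      exact ⟨hP, h0⟩
    refine ⟨m0 * (∏ Q ∈ S.erase P, (Δ Q).den : ℕ) * (Δ P).num, ?_⟩
    have h1 : ((Δ P).den : ℚ) * Δ P = (Δ P).num := by
      rw [mul_comm]
      exact Rat.mul_den_eq_num (Δ P)
    simp only [Pi.smul_apply, nsmul_eq_mul]
    rw [hd0, ← Finset.prod_erase_mul _ _ hPS]
    push_cast
    rw [← h1]
    ring
  · have h1 := hω.pow d0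
    rw [smul_smul] at h1
    exact h1
  · intro h0
    refine hne (funext fun G => ?_)
    have h1 := congrFun h0 G
    exact (pow_eq_zero_iff (by omega)).1 h1

end Pool.Agent.X325.KG
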