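import Mathlib

/-!
Transitive finitary `p`-groups without transitive subgroups with the cyclic-block property.
-/

set_option autoImplicit false

namespace Pool.Agent.X325.CB

open Equiv

section defs

variable {Ω : Type}

/-- The group of all finitary permutations of `Ω`: those which move only finitely many points. -/
def FSym (Ω : Type) : Subgroup (Perm Ω) where
  carrier := {g | {x | g x ≠ x}.Finite}
  mul_mem' := by
    intro a b ha hb
    refine (ha.union hb).subset fun x hx => ?_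
    by_contra hcon
    simp only [Set.mem_union, Set.mem_ofPred_eq, not_or, not_not] at hcon
    apply hx
    rw [Perm.mul_apply, hcon.2, hcon.1]
  one_mem' := by simp
  inv_mem' := by
    intro a ha
    refine ha.subset fun x hx => ?_
    intro h
    apply hx
    rw [Perm.inv_eq_iff_eq]
    exact h.symm

/-- A group of permutations of `Ω` is transitive if it has a single orbit on `Ω`. -/
def Transitive (H : Subgroup (Perm Ω)) : Prop :=
  Nonempty Ω ∧ ∀ x y : Ω, ∃ h ∈ H, h x = y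

/-- `B` is a block for `H`: it is not empty, and each `h` in `H` maps it to itself or to a set
which is disjoint from it. -/
def IsBlock (H : Subgroup (Perm Ω)) (B : Set Ω) : Prop :=
  B.Nonempty ∧ ∀ h ∈ H, h '' B = B ∨ Disjoint (h '' B) B

/-- A transitive group is totally imprimitive if every finite set is contained in a finite block. -/
def TotallyImprimitive (H : Subgroup (Perm Ω)) : Prop :=
  Transitive H ∧ ∀ F : Set Ω, F.Finite → ∃ B : Set Ω, F ⊆ B ∧ B.Finite ∧ IsBlock H B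

/-- The support of the cycle of `h` which contains `x` (the set `{x}` if `x` is a fixed point). -/
def cycleOf (h : Perm Ω) (x : Ω) : Set Ω := {y | ∃ n : ℤ, (h ^ n) x = y}

/-- The cyclic-block property of a totally imprimitive `p`-group of finitary permutations: the
supports of all cycles of all elements are blocks. -/
def CyclicBlock (p : ℕ) (H : Subgroup (Perm Ω)) : Prop :=
  H ≤ FSym Ω ∧ IsPGroup p H ∧ TotallyImprimitive H ∧ ∀ h ∈ H, ∀ x, IsBlock H (cycleOf h x)

/-- `S` is a Sylow `p`-subgroup of `G`: it is maximal among the `p`-subgroups of `G`. -/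
def IsSylow (p : ℕ) (G S : Subgroup (Perm Ω)) : Prop :=
  S ≤ G ∧ IsPGroup p S ∧ ∀ T : Subgroup (Perm Ω), T ≤ G → IsPGroup p T → S ≤ T → T = S

end defs

/-! ### the group of the upper unitriangular matrices of size four -/

/-- the entries of an upper unitriangular matrix of size four -/
@[ext] structure UT (R : Type) where
  a : R
  b : R
  c : R
  d : R
  e : R
  f : R

namespace UT

variable {R : Type} [CommRing R]

instance : Mul (UT R) :=
  ⟨fun g h => ⟨g.a + h.a, g.b + h.b, g.c + h.c, g.d + h.d + g.a * h.b, g.e + h.e + g.b * h.c,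
    g.f + h.f + g.a * h.e + g.d * h.c⟩⟩

instance : One (UT R) := ⟨⟨0, 0, 0, 0, 0, 0⟩⟩

instance : Inv (UT R) :=
  ⟨fun g => ⟨-g.a, -g.b, -g.c, -g.d + g.a * g.b, -g.e + g.b * g.c,
    -g.f + g.a * g.e + g.d * g.c - g.a * g.b * g.c⟩⟩

theorem mul_def (g h : UT R) : g * h = ⟨g.a + h.a, g.b + h.b, g.c + h.c, g.d + h.d + g.a * h.b,
    g.e + h.e + g.b * h.c, g.f + h.f + g.a * h.e + g.d * h.c⟩ := rfl

theorem one_def : (1 : UT R) = ⟨0, 0, 0, 0, 0, 0⟩ := rfl

theorem inv_def (g : UT R) : g⁻¹ = ⟨-g.a, -g.b, -g.c, -g.d + g.a * g.b, -g.e + g.b * g.c,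
    -g.f + g.a * g.e + g.d * g.c - g.a * g.b * g.c⟩ := rfl

instance : Group (UT R) :=
  Group.ofLeftAxioms
    (by
      intro x y z
      simp only [mul_def]
      ext <;> ring)
    (by
      intro x
      simp only [mul_def, one_def]
      ext <;> ring)
    (by
      intro x
      simp only [mul_def, one_def, inv_def]
      ext <;> ring)

/-- the entries -/
def equivProd : UT R ≃ (R × R × R × R × R × R) where
  toFun g := (g.a, g.b, g.c, g.d, g.e, g.f)
  invFun x := ⟨x.1, x.2.1, x.2.2.1, x.2.2.2.1, x.2.2.2.2.1, x.2.2.2.2.2⟩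
  left_inv _ := rfl
  right_inv _ := rfl

theorem card (p : ℕ) [NeZero p] : Nat.card (UT (ZMod p)) = p ^ 6 := by
  rw [Nat.card_congr equivProd]
  simp only [Nat.card_prod, Nat.card_zmod]
  ring

end UT

/-- the points: the left cosets of the subgroup of the elements with the single entry `d` -/
@[ext] structure Pt (R : Type) where
  a : R
  b : R
  c : R
  e : R
  f : R

namespace Pt

variable {R : Type} [CommRing R]

instance : SMul (UT R) (Pt R) :=
  ⟨fun g x => ⟨g.a + x.a, g.b + x.b, g.c + x.c, g.e + x.e + g.b * x.c,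
    g.f + x.f + g.a * x.e + g.d * x.c⟩⟩

theorem smul_def (g : UT R) (x : Pt R) : g • x = ⟨g.a + x.a, g.b + x.b, g.c + x.c,
    g.e + x.e + g.b * x.c, g.f + x.f + g.a * x.e + g.d * x.c⟩ := rfl

instance : MulAction (UT R) (Pt R) where
  one_smul x := by
    simp only [smul_def, UT.one_def]
    ext <;> ring
  mul_smul g h x := by
    simp only [smul_def, UT.mul_def]
    ext <;> ring

/-- the base point -/
def o : Pt R := ⟨0, 0, 0, 0, 0⟩

def equivProd : Pt R ≃ (R × R × R × R × R) where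
  toFun g := (g.a, g.b, g.c, g.e, g.f)
  invFun x := ⟨x.1, x.2.1, x.2.2.1, x.2.2.2.1, x.2.2.2.2⟩
  left_inv _ := rfl
  right_inv _ := rfl

instance (p : ℕ) [NeZero p] : Finite (Pt (ZMod p)) := Finite.of_equiv _ equivProd.symm

theorem exists_smul (x y : Pt R) : ∃ g : UT R, g • x = y := by
  refine ⟨⟨y.a - x.a, y.b - x.b, y.c - x.c, 0, y.e - x.e - (y.b - x.b) * x.c,
    y.f - x.f - (y.a - x.a) * x.e⟩, ?_⟩
  simp only [smul_def]
  ext <;> ring

end Pt

/-- **The group is minimal transitive.** -/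
theorem minimal_transitive {p : ℕ} [NeZero p] (N : Subgroup (UT (ZMod p)))
    (h : ∀ x : Pt (ZMod p), ∃ g ∈ N, g • (Pt.o : Pt (ZMod p)) = x) (g : UT (ZMod p)) : g ∈ N := by
  have key : ∀ g : UT (ZMod p), ∀ x, g • (Pt.o : Pt (ZMod p)) = x →
      g = ⟨x.a, x.b, x.c, g.d, x.e, x.f⟩ := by
    rintro g x rfl
    simp only [Pt.smul_def, Pt.o]
    ext <;> simp
  obtain ⟨n₁, hn₁, h₁⟩ := h ⟨1, 0, 0, 0, 0⟩
  obtain ⟨n₂, hn₂, h₂⟩ := h ⟨0, 1, 0, 0, 0⟩
  have e1 := key _ _ h₁
  have e2 := key _ _ h₂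
  have hD : (⟨0, 0, 0, 1, 0, 0⟩ : UT (ZMod p)) ∈ N := by
    have h3 : n₁ * n₂ * n₁⁻¹ * n₂⁻¹ ∈ N :=
      N.mul_mem (N.mul_mem (N.mul_mem hn₁ hn₂) (N.inv_mem hn₁)) (N.inv_mem hn₂)
    have h4 : n₁ * n₂ * n₁⁻¹ * n₂⁻¹ = ⟨0, 0, 0, 1, 0, 0⟩ := by
      rw [e1, e2]
      simp only [UT.mul_def, UT.inv_def]
      ext <;> ring
    rw [← h4]
    exact h3
  have hDn : ∀ n : ℕ, (⟨0, 0, 0, (n : ZMod p), 0, 0⟩ : UT (ZMod p)) ∈ N := by
    intro n
    induction n with
    | zero =>
      rw [Nat.cast_zero]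
      exact N.one_mem
    | succ n ih =>
      have h5 := N.mul_mem ih hD
      have h6 : (⟨0, 0, 0, (n : ZMod p), 0, 0⟩ : UT (ZMod p)) * ⟨0, 0, 0, 1, 0, 0⟩ =
          ⟨0, 0, 0, ((n + 1 : ℕ) : ZMod p), 0, 0⟩ := by
        simp only [UT.mul_def]
        ext <;> simp
      rw [← h6]
      exact h5
  obtain ⟨n, hn, hng⟩ := h (g • Pt.o)
  have e3 := key _ _ hng
  have e4 := key g _ rfl
  have h7 : ∃ k : ℕ, (k : ZMod p) = g.d - n.d := ⟨(g.d - n.d).val, ZMod.natCast_zmod_val _⟩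
  obtain ⟨k, hk⟩ := h7
  have h8 := N.mul_mem hn (hDn k)
  have h9 : n * ⟨0, 0, 0, (k : ZMod p), 0, 0⟩ = g := by
    rw [hk, e4]
    nth_rewrite 1 [e3]
    simp only [UT.mul_def]
    ext <;> simp
  rw [← h9]
  exact h8

/-! ### wreath products -/

section wreath

variable {M Δ Γ : Type} [Group M] [MulAction M Δ]

/-- The finitary permutations of `Δ × Γ` which act on `Γ` as an element of `T` and on the blocks
`Δ × {x}` by elements of `M`. -/
def wr (M Δ : Type) {Γ : Type} [Group M] [MulAction M Δ] (T : Subgroup (Perm Γ)) :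
    Subgroup (Perm (Δ × Γ)) where
  carrier := {g | g ∈ FSym (Δ × Γ) ∧ ∃ t ∈ T, ∃ m : Γ → M, ∀ δ x, g (δ, x) = (m x • δ, t x)}
  mul_mem' := by
    rintro g g' ⟨h, t, ht, m, hm⟩ ⟨h', t', ht', m', hm'⟩
    refine ⟨(FSym _).mul_mem h h', t * t', T.mul_mem ht ht', fun x => m (t' x) * m' x, ?_⟩
    intro δ x
    rw [Perm.mul_apply, hm', hm, mul_smul, Perm.mul_apply]
  one_mem' := ⟨(FSym _).one_mem, 1, T.one_mem, fun _ => 1, fun δ x => by simp⟩
  inv_mem' := by
    rintro g ⟨h, t, ht, m, hm⟩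
    refine ⟨(FSym _).inv_mem h, t⁻¹, T.inv_mem ht, fun x => (m (t⁻¹ x))⁻¹, ?_⟩
    intro δ x
    rw [Perm.inv_eq_iff_eq, hm]
    simp

theorem wr_le (T : Subgroup (Perm Γ)) : wr M Δ T ≤ FSym (Δ × Γ) := fun _ h => h.1

theorem wr_pow {g : Perm (Δ × Γ)} {t : Perm Γ} {m : Γ → M}
    (hm : ∀ δ x, g (δ, x) = (m x • δ, t x)) (n : ℕ) :
    ∃ c : Γ → M, ∀ δ x, (g ^ n) (δ, x) = (c x • δ, (t ^ n) x) := by
  induction n with
  | zero => exact ⟨fun _ => 1, fun δ x => by simp⟩
  | succ n ih =>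
    obtain ⟨c, hc⟩ := ih
    refine ⟨fun x => m ((t ^ n) x) * c x, fun δ x => ?_⟩
    rw [pow_succ', Perm.mul_apply, hc, hm, mul_smul, pow_succ', Perm.mul_apply]

/-- the wreath product is a `p`-group -/
theorem wr_pGroup {p e : ℕ} (hM : ∀ m : M, m ^ p ^ e = 1) {T : Subgroup (Perm Γ)}
    (hT : IsPGroup p T) : IsPGroup p (wr M Δ T) := by
  rintro ⟨g, hg, t, ht, m, hm⟩
  obtain ⟨a, ha⟩ := hT ⟨t, ht⟩
  have ha' : t ^ p ^ a = 1 := by
    have := congrArg Subtype.val ha
    simpa using this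
  refine ⟨a + e, Subtype.ext ?_⟩
  simp only [Subgroup.coe_pow, Subgroup.coe_one]
  obtain ⟨c, hc⟩ := wr_pow hm (p ^ a)
  have h1 : ∀ (n : ℕ) δ x, ((g ^ p ^ a) ^ n) (δ, x) = (c x ^ n • δ, x) := by
    intro n
    induction n with
    | zero => intro δ x; simp
    | succ n ih =>
      intro δ x
      rw [pow_succ', Perm.mul_apply, ih, hc, ha', pow_succ', mul_smul]
      simp
  rw [pow_add, pow_mul]
  ext1 ⟨δ, x⟩
  rw [h1, hM]
  simp

theorem wr_transitive [Finite Δ] [Nonempty Δ] (hM : ∀ δ δ' : Δ, ∃ m : M, m • δ = δ')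
    {T : Subgroup (Perm Γ)} (hT : T ≤ FSym Γ) (hT' : Transitive T) : Transitive (wr M Δ T) := by
  classical
  obtain ⟨hne, h⟩ := hT'
  refine ⟨inferInstance, ?_⟩
  rintro ⟨δ, x⟩ ⟨δ', y⟩
  obtain ⟨t, ht, htx⟩ := h x y
  obtain ⟨m, hm⟩ := hM δ δ'
  let g₁ : Perm (Δ × Γ) := Equiv.prodCongr (Equiv.refl Δ) t
  let g₂ : Perm (Δ × Γ) :=
    { toFun := fun z => ((if z.2 = y then m else 1) • z.1, z.2)
      invFun := fun z => ((if z.2 = y then m⁻¹ else 1) • z.1, z.2)
      left_inv := fun z => by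
        by_cases hz : z.2 = y <;> ext <;> simp [hz]
      right_inv := fun z => by
        by_cases hz : z.2 = y <;> ext <;> simp [hz] }
  have h1 : g₁ ∈ wr M Δ T := by
    refine ⟨?_, t, ht, fun _ => 1, fun δ x => by simp [g₁]⟩
    have h2 : {x | t x ≠ x}.Finite := hT ht
    refine ((Set.finite_univ (α := Δ)).prod h2).subset ?_
    rintro ⟨a, b⟩ hab
    refine ⟨Set.mem_univ _, fun hb => hab ?_⟩
    simp only [g₁, Equiv.prodCongr_apply, Equiv.coe_refl, Prod.map_apply, id_eq]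
    rw [hb]
  have h2 : g₂ ∈ wr M Δ T := by
    refine ⟨?_, 1, T.one_mem, fun x => if x = y then m else 1, fun δ x => rfl⟩
    refine ((Set.finite_univ (α := Δ)).prod (Set.finite_singleton y)).subset ?_
    rintro ⟨a, b⟩ hab
    refine ⟨Set.mem_univ _, ?_⟩
    by_contra hb
    rw [Set.mem_singleton_iff] at hb
    exact hab (by simp [g₂, hb])
  refine ⟨g₂ * g₁, (wr M Δ T).mul_mem h2 h1, ?_⟩
  simp [g₁, g₂, htx, hm]

theorem wr_imprimitive [Finite Δ] [Nonempty Δ] (hM : ∀ δ δ' : Δ, ∃ m : M, m • δ = δ')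
    {T : Subgroup (Perm Γ)} (hT : T ≤ FSym Γ) (hT' : TotallyImprimitive T) :
    TotallyImprimitive (wr M Δ T) := by
  refine ⟨wr_transitive hM hT hT'.1, fun F hF => ?_⟩
  obtain ⟨B, h1, h2, ⟨⟨b, hb⟩, h4⟩⟩ := hT'.2 (Prod.snd '' F) (hF.image _)
  refine ⟨Set.univ ×ˢ B, fun x hx => ⟨Set.mem_univ _, h1 ⟨x, hx, rfl⟩⟩,
    Set.finite_univ.prod h2, ⟨(Classical.arbitrary Δ, b), Set.mem_univ _, hb⟩, ?_⟩
  rintro h ⟨-, t, ht, m, hm⟩
  rcases h4 t ht with h5 | h5
  · left
    ext ⟨δ, x⟩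
    simp only [Set.mem_image, Set.mem_prod, Set.mem_univ, true_and, Prod.exists]
    constructor
    · rintro ⟨δ', x', hx', he⟩
      rw [hm, Prod.mk.injEq] at he
      rw [← he.2, ← h5]
      exact ⟨x', hx', rfl⟩
    · intro hx
      rw [← h5] at hx
      obtain ⟨x', hx', he⟩ := hx
      exact ⟨(m x')⁻¹ • δ, x', hx', by rw [hm, he]; simp⟩
  · right
    rw [Set.disjoint_left]
    rintro _ ⟨⟨δ, x⟩, ⟨-, hx⟩, rfl⟩ hmem
    rw [hm] at hmem
    exact Set.disjoint_left.1 h5 ⟨x, hx, rfl⟩ hmem.2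

/-- **The main argument.** -/
theorem wr_main {p : ℕ} [NeZero p] (hp : p ≠ 1) {T : Subgroup (Perm Γ)}
    {H : Subgroup (Perm (Pt (ZMod p) × Γ))} (hH : H ≤ wr (UT (ZMod p)) (Pt (ZMod p)) T)
    (hHt : Transitive H) : ∃ h ∈ H, ∃ x, ¬ IsBlock H (cycleOf h x) := by
  obtain ⟨⟨⟨-, γ⟩⟩, htr⟩ := hHt
  -- the local group
  let N : Subgroup (UT (ZMod p)) :=
    { carrier := {m | ∃ h ∈ H, ∀ δ, h (δ, γ) = (m • δ, γ)}
      mul_mem' := by
        rintro a b ⟨h, hh, h1⟩ ⟨h', hh', h1'⟩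
        refine ⟨h * h', H.mul_mem hh hh', fun δ => ?_⟩
        rw [Perm.mul_apply, h1', h1, mul_smul]
      one_mem' := ⟨1, H.one_mem, fun δ => by simp⟩
      inv_mem' := by
        rintro a ⟨h, hh, h1⟩
        refine ⟨h⁻¹, H.inv_mem hh, fun δ => ?_⟩
        rw [Perm.inv_eq_iff_eq, h1]
        simp }
  have hN : ∀ x : Pt (ZMod p), ∃ g ∈ N, g • (Pt.o : Pt (ZMod p)) = x := by
    intro x
    obtain ⟨h, hh, hx⟩ := htr (Pt.o, γ) (x, γ)
    obtain ⟨-, t, -, m, hm⟩ := hH hh
    rw [hm] at hx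
    have h1 : m γ • (Pt.o : Pt (ZMod p)) = x := congrArg Prod.fst hx
    have h2 : t γ = γ := congrArg Prod.snd hx
    exact ⟨m γ, ⟨h, hh, fun δ => by rw [hm, h2]⟩, h1⟩
  have hall := minimal_transitive N hN
  obtain ⟨g, hg, hg'⟩ := hall ⟨0, 0, 0, 1, 0, 0⟩
  obtain ⟨h, hh, hh'⟩ := hall ⟨0, 0, 1, 0, 0, 0⟩
  refine ⟨h, hh, (Pt.o, γ), fun hB => ?_⟩
  have hcyc : ∀ n : ℤ, (h ^ n) (Pt.o, γ) = (⟨0, 0, (n : ZMod p), 0, 0⟩, γ) := by
    have hs : ∀ c : ZMod p, h (⟨0, 0, c, 0, 0⟩, γ) = (⟨0, 0, c + 1, 0, 0⟩, γ) := by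
      intro c
      rw [hh']
      simp only [Pt.smul_def]
      congr 1
      ext <;> simp [add_comm]
    intro n
    induction n with
    | zero => simp [Pt.o]
    | succ n ih =>
      rw [zpow_add, zpow_one, (Commute.refl h).zpow_left n |>.eq, Perm.mul_apply, ih, hs]
      push_cast
      rfl
    | pred n ih =>
      have h3 : h ^ (-(n : ℤ)) = h * h ^ (-(n : ℤ) - 1) := by
        rw [← zpow_one_add]
        congr 1
        ring
      have h4 : h ((h ^ (-(n : ℤ) - 1)) (Pt.o, γ)) = h (⟨0, 0, ((-(n : ℤ) - 1 : ℤ) : ZMod p), 0, 0⟩, γ) := by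
        rw [← Perm.mul_apply, ← h3, ih, hs]
        push_cast
        congr 2
        ring
      exact h.injective h4
  have hmem0 : ((Pt.o : Pt (ZMod p)), γ) ∈ cycleOf h (Pt.o, γ) := ⟨0, by simp⟩
  have hg0 : g (Pt.o, γ) = (Pt.o, γ) := by
    rw [hg']
    simp only [Pt.smul_def, Pt.o]
    congr 1
    ext <;> simp
  rcases hB.2 g hg with h1 | h1
  · have h2 : g (⟨0, 0, 1, 0, 0⟩, γ) ∈ cycleOf h (Pt.o, γ) := by
      rw [← h1]
      exact ⟨_, ⟨1, by rw [hcyc]; simp⟩, rfl⟩
    obtain ⟨n, hn⟩ := h2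
    rw [hcyc, hg'] at hn
    have h3 := congrArg (fun z => (Prod.fst z).f) hn
    simp only [Pt.smul_def] at h3
    have : Fact (1 < p) := ⟨by have := NeZero.ne p; omega⟩
    simp at h3
  · exact Set.disjoint_left.1 h1 ⟨_, hmem0, hg0⟩ hmem0

end wreath

/-! ### a transitive finitary `p`-group on an infinite set -/

section tri

variable {p : ℕ}

theorem apply_inv (t : Perm (ℕ →₀ ZMod p)) (x : ℕ →₀ ZMod p) : t (t⁻¹ x) = x := by
  rw [← Perm.mul_apply, mul_inv_cancel, Perm.one_apply]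

/-- the permutation is triangular: the change of the digit `k` depends only on the digits
`> k` -/
def Tri (t : Perm (ℕ →₀ ZMod p)) : Prop :=
  ∀ (k : ℕ) (x y : ℕ →₀ ZMod p), (∀ j, k < j → x j = y j) → t x k - x k = t y k - y k

theorem Tri.above {t : Perm (ℕ →₀ ZMod p)} (h : Tri t) {k : ℕ} {x y : ℕ →₀ ZMod p}
    (hxy : ∀ j, k < j → x j = y j) : ∀ j, k < j → t x j = t y j := by
  intro j hj
  have h1 := h j x y fun i hi => hxy i (hj.trans hi)
  rw [hxy j hj] at h1
  exact sub_left_injective h1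

theorem Tri.mul {t t' : Perm (ℕ →₀ ZMod p)} (h : Tri t) (h' : Tri t') : Tri (t * t') := by
  intro k x y hxy
  have h1 := h k (t' x) (t' y) (h'.above hxy)
  have h2 := h' k x y hxy
  rw [Perm.mul_apply, Perm.mul_apply]
  linear_combination h1 + h2

theorem Tri.inv {t : Perm (ℕ →₀ ZMod p)} (h : Tri t) : Tri t⁻¹ := by
  intro k x y hxy
  -- the preimages agree above `k`
  have key : ∀ j, k < j → t⁻¹ x j = t⁻¹ y j := by
    obtain ⟨K, hK⟩ : ∃ K : ℕ, ∀ j, K ≤ j → t⁻¹ x j = t⁻¹ y j := by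
      refine ⟨((t⁻¹ x).support ∪ (t⁻¹ y).support).sup id + 1, fun j hj => ?_⟩
      have h1 : j ∉ (t⁻¹ x).support ∪ (t⁻¹ y).support := fun hmem => by
        have := Finset.le_sup (f := id) hmem
        simp only [id_eq] at this
        omega
      rw [Finset.mem_union, not_or, Finsupp.notMem_support_iff, Finsupp.notMem_support_iff] at h1
      rw [h1.1, h1.2]
    have h2 : ∀ n : ℕ, ∀ j, k < j → K ≤ j + n → t⁻¹ x j = t⁻¹ y j := by
      intro n
      induction n with
      | zero => intro j _ hj; exact hK j hj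
      | succ n ih =>
        intro j hkj hj
        have h3 := h j (t⁻¹ x) (t⁻¹ y) fun i hi => ih i (hkj.trans hi) (by omega)
        rw [apply_inv, apply_inv, hxy j hkj] at h3
        exact sub_right_injective h3
    intro j hj
    exact h2 K j hj (by omega)
  have h1 := h k (t⁻¹ x) (t⁻¹ y) key
  rw [apply_inv, apply_inv] at h1
  linear_combination -h1

/-- the finitary triangular permutations -/
def triGroup (p : ℕ) : Subgroup (Perm (ℕ →₀ ZMod p)) where
  carrier := {t | t ∈ FSym _ ∧ Tri t}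
  mul_mem' := fun h h' => ⟨(FSym _).mul_mem h.1 h'.1, h.2.mul h'.2⟩
  one_mem' := ⟨(FSym _).one_mem, fun k x y _ => by simp⟩
  inv_mem' := fun h => ⟨(FSym _).inv_mem h.1, h.2.inv⟩

theorem triGroup_le : triGroup p ≤ FSym _ := fun _ h => h.1

theorem triGroup_pGroup [Fact (1 < p)] : IsPGroup p (triGroup p) := by
  rintro ⟨t, hf, ht⟩
  have hf' : {x | t x ≠ x}.Finite := hf
  -- points with a nonzero large digit are fixed
  obtain ⟨K, hK⟩ : ∃ K : ℕ, ∀ x : ℕ →₀ ZMod p, ∀ j, K ≤ j → x j ≠ 0 → t x = x := by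
    refine ⟨(hf'.toFinset.sup fun x => x.support.sup id) + 1, fun x j hj hxj => ?_⟩
    by_contra hne
    have h1 : x ∈ hf'.toFinset := by
      rw [Set.Finite.mem_toFinset]
      exact hne
    have h2 := Finset.le_sup (f := fun x : ℕ →₀ ZMod p => x.support.sup id) h1
    have h3 := Finset.le_sup (f := id) (Finsupp.mem_support_iff.2 hxj)
    simp only [id_eq] at h2 h3
    omega
  -- large digits do not change
  have hbig : ∀ x : ℕ →₀ ZMod p, ∀ j, K ≤ j → t x j = x j := by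
    intro x j hj
    have h1 := ht j x (x.update j 1) fun i hi => by
      rw [Finsupp.update_apply, if_neg hi.ne']
    have h2 := hK (x.update j 1) j hj (by rw [Finsupp.update_apply, if_pos rfl]; exact one_ne_zero)
    rw [h2, sub_self] at h1
    exact sub_eq_zero.1 h1
  have hpow : ∀ n : ℕ, Tri (t ^ n) := by
    intro n
    induction n with
    | zero => intro k x y _; simp
    | succ n ih => rw [pow_succ]; exact ih.mul ht
  have hstep : ∀ i : ℕ, i ≤ K → ∀ x : ℕ →₀ ZMod p, ∀ j, K ≤ j + i → (t ^ p ^ i) x j = x j := by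
    intro i
    induction i with
    | zero => intro _ x j hj; rw [pow_zero, pow_one]; exact hbig x j hj
    | succ i ih =>
      intro hi x j hj
      have hs := hpow (p ^ i)
      have h1 : ∀ n : ℕ, (∀ l, j < l → ((t ^ p ^ i) ^ n) x l = x l) ∧
          ((t ^ p ^ i) ^ n) x j = x j + n * ((t ^ p ^ i) x j - x j) := by
        intro n
        induction n with
        | zero => simp
        | succ n ihn =>
          obtain ⟨h2, h3⟩ := ihn
          refine ⟨fun l hl => ?_, ?_⟩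
          · rw [pow_succ', Perm.mul_apply, ih (by omega) _ l (by omega), h2 l hl]
          · rw [pow_succ', Perm.mul_apply]
            have h4 := hs j (((t ^ p ^ i) ^ n) x) x h2
            rw [h3] at h4
            push_cast
            linear_combination h4
      have h5 := (h1 p).2
      rw [CharP.cast_eq_zero, zero_mul, add_zero, ← pow_mul, ← pow_succ] at h5
      exact h5
  refine ⟨K, Subtype.ext ?_⟩
  simp only [Subgroup.coe_pow, Subgroup.coe_one]
  ext x j
  rw [hstep K le_rfl x j (by omega)]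
  rfl

theorem finite_small [NeZero p] (K : ℕ) : {z : ℕ →₀ ZMod p | ∀ j, K ≤ j → z j = 0}.Finite := by
  have h2 : Function.Injective
      (fun (z : {z : ℕ →₀ ZMod p | ∀ j, K ≤ j → z j = 0}) (i : Fin K) => z.1 i) := by
    intro z w hzw
    ext j
    by_cases hj : K ≤ j
    · rw [z.2 j hj, w.2 j hj]
    · exact congrFun hzw ⟨j, not_le.1 hj⟩
  exact Set.finite_coe_iff.1 (Finite.of_injective _ h2)

theorem triGroup_transitive [NeZero p] : Transitive (triGroup p) := by
  classical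
  refine ⟨inferInstance, fun x y => ?_⟩
  obtain ⟨K, hK⟩ : ∃ K : ℕ, ∀ j, K ≤ j → x j = 0 ∧ y j = 0 := by
    refine ⟨(x.support ∪ y.support).sup id + 1, fun j hj => ?_⟩
    have h1 : j ∉ x.support ∪ y.support := fun hmem => by
      have := Finset.le_sup (f := id) hmem
      simp only [id_eq] at this
      omega
    rw [Finset.mem_union, not_or, Finsupp.notMem_support_iff, Finsupp.notMem_support_iff] at h1
    exact h1
  have hd : ∀ j, K ≤ j → (y - x) j = 0 := fun j hj => by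
    rw [Finsupp.sub_apply, (hK j hj).1, (hK j hj).2, sub_zero]
  let t : Perm (ℕ →₀ ZMod p) :=
    { toFun := fun z => if ∀ j, K ≤ j → z j = 0 then z + (y - x) else z
      invFun := fun z => if ∀ j, K ≤ j → z j = 0 then z - (y - x) else z
      left_inv := fun z => by
        by_cases hz : ∀ j, K ≤ j → z j = 0
        · have h1 : ∀ j, K ≤ j → (z + (y - x)) j = 0 := fun j hj => by
            rw [Finsupp.add_apply, hz j hj, hd j hj, add_zero]
          simp only [if_pos hz, if_pos h1, add_sub_cancel_right]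
        · simp only [if_neg hz]
      right_inv := fun z => by
        by_cases hz : ∀ j, K ≤ j → z j = 0
        · have h1 : ∀ j, K ≤ j → (z - (y - x)) j = 0 := fun j hj => by
            rw [Finsupp.sub_apply, hz j hj, hd j hj, sub_zero]
          simp only [if_pos hz, if_pos h1, sub_add_cancel]
        · simp only [if_neg hz] }
  have htd : ∀ z, t z = if ∀ j, K ≤ j → z j = 0 then z + (y - x) else z := fun _ => rfl
  refine ⟨t, ⟨?_, ?_⟩, ?_⟩
  · refine (finite_small K).subset fun z hz => ?_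
    by_contra hcon
    exact hz (by rw [htd]; exact if_neg hcon)
  · intro k z w hzw
    rw [htd, htd]
    by_cases hk : K ≤ k
    · have h1 : ∀ u : ℕ →₀ ZMod p,
          (if ∀ j, K ≤ j → u j = 0 then u + (y - x) else u) k - u k = 0 := by
        intro u
        split_ifs with hu
        · rw [Finsupp.add_apply, hd k hk, add_zero, sub_self]
        · rw [sub_self]
      rw [h1, h1]
    · have h1 : (∀ j, K ≤ j → z j = 0) ↔ ∀ j, K ≤ j → w j = 0 := by
        refine forall_congr' fun j => imp_congr_right fun hj => ?_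
        rw [hzw j (by omega)]
      by_cases hz : ∀ j, K ≤ j → z j = 0
      · rw [if_pos hz, if_pos (h1.1 hz), Finsupp.add_apply, Finsupp.add_apply]
        ring
      · rw [if_neg hz, if_neg (fun h => hz (h1.2 h)), sub_self, sub_self]
  · rw [htd, if_pos fun j hj => (hK j hj).1]
    abel

theorem triGroup_imprimitive [NeZero p] : TotallyImprimitive (triGroup p) := by
  classical
  refine ⟨triGroup_transitive, fun F hF => ?_⟩
  obtain ⟨K, hK⟩ : ∃ K : ℕ, ∀ x ∈ F, ∀ j, K ≤ j → x j = 0 := by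
    refine ⟨(hF.toFinset.sup fun x => x.support.sup id) + 1, fun x hx j hj => ?_⟩
    by_contra hxj
    have h2 := Finset.le_sup (f := fun x : ℕ →₀ ZMod p => x.support.sup id)
      (hF.mem_toFinset.2 hx)
    have h3 := Finset.le_sup (f := id) (Finsupp.mem_support_iff.2 hxj)
    simp only [id_eq] at h2 h3
    omega
  refine ⟨{z : ℕ →₀ ZMod p | ∀ j, K ≤ j → z j = 0}, fun x hx => hK x hx, finite_small K,
    ⟨0, fun _ _ => rfl⟩, ?_⟩
  rintro h ⟨-, ht⟩
  have hab : ∀ {t : Perm (ℕ →₀ ZMod p)}, Tri t → ∀ x y : ℕ →₀ ZMod p, (∀ j, K ≤ j → x j = 0) →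
      (∀ j, K ≤ j → y j = 0) → ∀ j, K ≤ j → t x j = t y j := by
    intro t ht x y hx hy j hj
    have h1 := ht j x y fun i hi => by rw [hx i (by omega), hy i (by omega)]
    rw [hx j hj, hy j hj, sub_zero, sub_zero] at h1
    exact h1
  by_cases h0 : ∀ j, K ≤ j → h 0 j = 0
  · left
    have h1 : ∀ x : ℕ →₀ ZMod p, (∀ j, K ≤ j → x j = 0) → ∀ j, K ≤ j → h x j = 0 :=
      fun x hx j hj => by rw [hab ht x 0 hx (fun _ _ => rfl) j hj, h0 j hj]
    have h2 : ∀ x : ℕ →₀ ZMod p, (∀ j, K ≤ j → x j = 0) → ∀ j, K ≤ j → h⁻¹ x j = 0 := by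
      intro x hx j hj
      rw [hab ht.inv x (h 0) hx h0 j hj, ← Perm.mul_apply, inv_mul_cancel]
      rfl
    ext x
    constructor
    · rintro ⟨x, hx, rfl⟩
      exact h1 x hx
    · intro hx
      exact ⟨h⁻¹ x, h2 x hx, apply_inv h x⟩
  · right
    rw [Set.disjoint_left]
    rintro _ ⟨x, hx, rfl⟩ hmem
    refine h0 fun j hj => ?_
    rw [hab ht 0 x (fun _ _ => rfl) hx j hj]
    exact hmem j hj

end tri

end Pool.Agent.X325.CB
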