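import Mathlib

/-!
Transitive Sylow `p`-subgroups of transitive groups of finitary permutations.
-/

set_option autoImplicit false

namespace Pool.Agent.X325.SF

open Equiv

universe u

section defs

variable {Ω : Type u}

/-- The group of all finitary permutations of `Ω`: those which move only finitely many points. -/
def FSym (Ω : Type u) : Subgroup (Perm Ω) where
  carrier := {g | {x | g x ≠ x}.Finite}
  mul_mem' := by
    intro a b ha hb
    refine (ha.union hb).subset fun x hx => ?_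
    by_contra hcon
    simp only [Set.mem_union, Set.mem_ofPred_eq, not_or, not_not] at hcon
    apply hx
    rw [Perm.mul_apply, hcon.2, hcon.1]
  one_mem' := by simp
  inv_mem' := by
    intro a ha
    refine ha.subset fun x hx => ?_
    intro h
    apply hx
    rw [Perm.inv_eq_iff_eq]
    exact h.symm

/-- A group of permutations of `Ω` is transitive if for all points `x`, `y` it contains an element
which maps `x` to `y`. -/
def Transitive (H : Subgroup (Perm Ω)) : Prop :=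
  ∀ x y : Ω, ∃ h ∈ H, h x = y

/-- Blocks. -/
def IsBlock (H : Subgroup (Perm Ω)) (B : Set Ω) : Prop :=
  ∀ h ∈ H, h '' B = B ∨ Disjoint (h '' B) B

/-- The group of the permutations which fix all points outside of `D`. -/
def supp (D : Set Ω) : Subgroup (Perm Ω) where
  carrier := {g | ∀ x, x ∉ D → g x = x}
  mul_mem' := by
    intro a b ha hb x hx
    rw [Perm.mul_apply, hb x hx, ha x hx]
  one_mem' := by
    intro x _
    rfl
  inv_mem' := by
    intro a ha x hx
    rw [Perm.inv_eq_iff_eq, ha x hx]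

theorem papply_inv (f : Perm Ω) (x : Ω) : f (f⁻¹ x) = x := f.apply_symm_apply x

theorem pinv_apply (f : Perm Ω) (x : Ω) : f⁻¹ (f x) = x := f.symm_apply_apply x

theorem mem_supp {D : Set Ω} {g : Perm Ω} : g ∈ supp D ↔ ∀ x, x ∉ D → g x = x := Iff.rfl

theorem supp_apply_mem {D : Set Ω} {g : Perm Ω} (hg : g ∈ supp D) {x : Ω} (hx : x ∈ D) :
    g x ∈ D := by
  by_contra hcon
  have h1 : g x = x := g.injective (hg _ hcon)
  rw [h1] at hcon
  exact hcon hx

theorem finite_supp {D : Set Ω} (hD : D.Finite) : Finite (supp D) := by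
  have : Finite D := hD
  refine Finite.of_injective (β := D → D)
    (fun g : supp D => fun d : D => ⟨(g : Perm Ω) d, supp_apply_mem g.2 d.2⟩) ?_
  intro g h hgh
  apply Subtype.ext
  ext x
  by_cases hx : x ∈ D
  · have := congrFun hgh ⟨x, hx⟩
    exact congrArg Subtype.val this
  · rw [g.2 x hx, h.2 x hx]

end defs

/-! ### maximal subgroups of locally finite `p`-groups -/

theorem exists_finite_closure {H : Type u} [Group H] {Y : Set H} {g : H}
    (hg : g ∈ Subgroup.closure Y) : ∃ Z ⊆ Y, Z.Finite ∧ g ∈ Subgroup.closure Z := by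
  induction hg using Subgroup.closure_induction with
  | mem x hx => exact ⟨{x}, by simpa using hx, Set.finite_singleton x, Subgroup.subset_closure rfl⟩
  | one => exact ⟨∅, Set.empty_subset _, Set.finite_empty, Subgroup.one_mem _⟩
  | mul x y _ _ ihx ihy =>
    obtain ⟨Z, hZ, hZf, hxZ⟩ := ihx
    obtain ⟨W, hW, hWf, hyW⟩ := ihy
    exact ⟨Z ∪ W, Set.union_subset hZ hW, hZf.union hWf, Subgroup.mul_mem _
      (Subgroup.closure_mono Set.subset_union_left hxZ)
      (Subgroup.closure_mono Set.subset_union_right hyW)⟩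
  | inv x _ ih =>
    obtain ⟨Z, hZ, hZf, hxZ⟩ := ih
    exact ⟨Z, hZ, hZf, Subgroup.inv_mem _ hxZ⟩

/-- (McLain) A maximal subgroup of a locally finite `p`-group is normal. -/
theorem normal_of_coatom {H : Type u} [Group H] {p : ℕ} (hp : p.Prime) (hH : IsPGroup p H)
    (hlf : ∀ Z : Set H, Z.Finite → Finite (Subgroup.closure Z)) (M : Subgroup H)
    (hM : IsCoatom M) : M.Normal := by
  have : Fact p.Prime := ⟨hp⟩
  refine ⟨fun m hm g => ?_⟩
  by_contra hx
  set x := g * m * g⁻¹ with hxdef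
  have htop : Subgroup.closure (insert x (M : Set H)) = ⊤ := by
    apply hM.2
    refine lt_of_le_of_ne (fun y hy => Subgroup.subset_closure (Set.mem_insert_of_mem _ hy)) ?_
    intro h
    apply hx
    rw [h]
    exact Subgroup.subset_closure (Set.mem_insert _ _)
  obtain ⟨Z, hZ, hZf, hgZ⟩ := exists_finite_closure (htop ▸ Subgroup.mem_top g)
  set K : Subgroup H := Subgroup.closure (insert m (Z \ {x})) with hK
  set L : Subgroup H := Subgroup.closure (insert x (insert m (Z \ {x}))) with hL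
  have hKM : K ≤ M := by
    rw [hK, Subgroup.closure_le]
    intro y hy
    rcases hy with rfl | hy
    · exact hm
    · rcases hZ hy.1 with h | h
      · exact absurd h hy.2
      · exact h
  have hKL : K ≤ L := Subgroup.closure_mono (Set.subset_insert _ _)
  have hmL : m ∈ L := hKL (Subgroup.subset_closure (Set.mem_insert _ _))
  have hxL : x ∈ L := Subgroup.subset_closure (Set.mem_insert _ _)
  have hgL : g ∈ L := by
    refine Subgroup.closure_mono ?_ hgZ
    intro y hy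
    by_cases h : y = x
    · exact Or.inl h
    · exact Or.inr (Or.inr ⟨hy, h⟩)
  have hfin : Finite L := hlf _ (((hZf.subset Set.sdiff_subset).insert _).insert _)
  have hLp : IsPGroup p L := hH.to_subgroup L
  have hnil : Group.IsNilpotent L := hLp.isNilpotent
  rcases eq_top_or_exists_le_coatom (K.subgroupOf L) with h | ⟨C, hC, hKC⟩
  · apply hx
    apply hKM
    have : (⟨x, hxL⟩ : L) ∈ K.subgroupOf L := h ▸ Subgroup.mem_top _
    exact this
  · have hCn : C.Normal := Subgroup.NormalizerCondition.normal_of_coatom C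
      (Group.normalizerCondition_of_isNilpotent (G := L)) hC
    have hmC : (⟨m, hmL⟩ : L) ∈ C := hKC (by
      rw [Subgroup.mem_subgroupOf]
      exact Subgroup.subset_closure (Set.mem_insert _ _))
    have hxC : (⟨x, hxL⟩ : L) ∈ C := by
      have := hCn.conj_mem _ hmC ⟨g, hgL⟩
      exact this
    apply hC.1
    rw [eq_top_iff]
    have h2 : Subgroup.closure (insert x (insert m (Z \ {x}))) ≤ C.map L.subtype := by
      rw [Subgroup.closure_le]
      intro y hy
      rcases hy with rfl | hy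
      · exact ⟨⟨_, hxL⟩, hxC, rfl⟩
      · have hyK : y ∈ K := Subgroup.subset_closure hy
        exact ⟨⟨y, hKL hyK⟩, hKC (by rw [Subgroup.mem_subgroupOf]; exact hyK), rfl⟩
    intro y _
    obtain ⟨z, hz, hzy⟩ := h2 y.2
    have : z = y := Subtype.ext hzy
    exact this ▸ hz

/-! ### blocks -/

section blocks

variable {Ω : Type u} {S : Subgroup (Perm Ω)}

/-- An infinite block is the whole set. -/
theorem block_eq_univ (hS : S ≤ FSym Ω) (hSt : Transitive S) {B : Set Ω} (hB : IsBlock S B)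
    (hBi : B.Infinite) : B = Set.univ := by
  by_contra hne
  obtain ⟨y, hy⟩ : ∃ y, y ∉ B := (Set.ne_univ_iff_exists_notMem B).1 hne
  obtain ⟨x, hx⟩ := hBi.nonempty
  obtain ⟨s, hs, hsx⟩ := hSt x y
  rcases hB s hs with h | h
  · exact hy (h ▸ ⟨x, hx, hsx⟩)
  · apply hBi
    refine (hS hs).subset fun b hb => ?_
    intro hsb
    exact Set.disjoint_left.1 h ⟨b, hb, rfl⟩ (hsb.symm ▸ hb)

theorem finite_closure (hS : S ≤ FSym Ω) (Z : Set S) (hZ : Z.Finite) :
    Finite (Subgroup.closure Z) := by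
  have hD : (⋃ z ∈ Z, {x | (z : Perm Ω) x ≠ x}).Finite := hZ.biUnion fun z _ => hS z.2
  have h1 : Subgroup.closure Z ≤ (supp (⋃ z ∈ Z, {x | (z : Perm Ω) x ≠ x})).subgroupOf S := by
    rw [Subgroup.closure_le]
    intro z hz
    rw [SetLike.mem_coe, Subgroup.mem_subgroupOf]
    intro x hx
    by_contra hcon
    exact hx (Set.mem_biUnion hz hcon)
  have := finite_supp hD
  refine Finite.of_injective (β := supp (⋃ z ∈ Z, {x | (z : Perm Ω) x ≠ x}))
    (fun z : Subgroup.closure Z => ⟨((z : S) : Perm Ω), h1 z.2⟩) ?_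
  intro z w hzw
  rw [Subtype.mk.injEq] at hzw
  exact Subtype.ext (Subtype.ext hzw)

/-- A transitive `p`-group of finitary permutations is totally imprimitive. -/
theorem exists_block {p : ℕ} (hp : p.Prime) (hS : S ≤ FSym Ω) (hSt : Transitive S)
    (hSp : IsPGroup p S) [Nonempty Ω] {F : Set Ω} (hF : F.Finite) :
    ∃ Δ : Set Ω, F ⊆ Δ ∧ Δ.Finite ∧ Δ.Nonempty ∧ IsBlock S Δ := by
  by_contra hcon
  push Not at hcon
  have hΩ : Infinite Ω := by
    by_contra h
    rw [not_infinite_iff_finite] at h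
    exact hcon Set.univ (Set.subset_univ _) Set.finite_univ Set.univ_nonempty
      (fun h _ => Or.inl (Set.image_univ_of_surjective h.surjective))
  obtain ⟨o⟩ := ‹Nonempty Ω›
  have hsing : IsBlock S {o} := by
    intro s _
    by_cases h : s o = o
    · left
      rw [Set.image_singleton, h]
    · right
      rw [Set.image_singleton]
      exact Set.disjoint_singleton.2 h
  obtain ⟨B, -, hBmax⟩ := zorn_subset_nonempty {B : Set Ω | o ∈ B ∧ IsBlock S B ∧ ¬ F ⊆ B}
    (by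
      intro c hc hch hcn
      have hcn' := hcn
      obtain ⟨B₀, hB₀⟩ := hcn'
      refine ⟨⋃₀ c, ⟨⟨B₀, hB₀, (hc hB₀).1⟩, ?_, ?_⟩, fun B hB => Set.subset_sUnion_of_mem hB⟩
      · intro s hs
        by_contra hcon'
        rw [not_or, Set.not_disjoint_iff] at hcon'
        obtain ⟨h1, y, ⟨z, ⟨B₁, hB₁, hzB₁⟩, rfl⟩, B₂, hB₂, hyB₂⟩ := hcon'
        obtain ⟨B₃, hB₃, h13, h23⟩ := hch.directedOn B₁ hB₁ B₂ hB₂
        have key : ∀ B ∈ c, B₃ ⊆ B → s '' B = B := by
          intro B hB h3B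
          rcases (hc hB).2.1 s hs with h | h
          · exact h
          · exact absurd (h3B (h23 hyB₂)) (Set.disjoint_left.1 h ⟨z, h3B (h13 hzB₁), rfl⟩)
        apply h1
        apply Set.Subset.antisymm
        · rintro _ ⟨x, ⟨B, hB, hxB⟩, rfl⟩
          obtain ⟨B', hB', h, h'⟩ := hch.directedOn B hB B₃ hB₃
          exact ⟨B', hB', key B' hB' h' ▸ ⟨x, h hxB, rfl⟩⟩
        · rintro x ⟨B, hB, hxB⟩
          obtain ⟨B', hB', h, h'⟩ := hch.directedOn B hB B₃ hB₃
          have h2 : x ∈ s '' B' := (key B' hB' h').symm ▸ h hxB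
          obtain ⟨w, hw, rfl⟩ := h2
          exact ⟨w, ⟨B', hB', hw⟩, rfl⟩
      · intro hFc
        obtain ⟨B, hB, hFB⟩ :=
          hch.directedOn.exists_mem_subset_of_finite_of_subset_sUnion hcn hF hFc
        exact (hc hB).2.2 hFB)
    {o} ⟨rfl, hsing, fun h => hcon {o} h (Set.finite_singleton o) (Set.singleton_nonempty o) hsing⟩
  obtain ⟨⟨hoB, hBb, hFB⟩, hmax⟩ := hBmax
  have hBf : B.Finite := by
    by_contra h
    exact hFB (block_eq_univ hS hSt hBb h ▸ Set.subset_univ _)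
  have hbig : ∀ B' : Set Ω, IsBlock S B' → B ⊆ B' → B ≠ B' → B' = Set.univ := by
    intro B' hB' hBB' hne
    have hF' : F ⊆ B' := by
      by_contra h
      exact hne (Set.Subset.antisymm hBB' (hmax ⟨hBB' hoB, hB', h⟩ hBB'))
    by_contra h
    have hfin : B'.Finite := by
      by_contra h'
      exact h (block_eq_univ hS hSt hB' h')
    exact hcon B' hF' hfin ⟨o, hBB' hoB⟩ hB'
  have hfix : ∀ s ∈ S, s o ∈ B → s '' B = B := by
    intro s hs hso
    rcases hBb s hs with h | h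
    · exact h
    · exact absurd hso (Set.disjoint_left.1 h ⟨o, hoB, rfl⟩)
  let M : Subgroup S :=
    { carrier := {s | (s : Perm Ω) '' B = B}
      mul_mem' := by
        intro a b ha hb
        change ((a : Perm Ω) * (b : Perm Ω) : Perm Ω) '' B = B
        have ha' : (a : Perm Ω) '' B = B := ha
        have hb' : (b : Perm Ω) '' B = B := hb
        rw [Perm.coe_mul, Set.image_comp, hb', ha']
      one_mem' := by
        change ((1 : Perm Ω)) '' B = B
        simp
      inv_mem' := by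
        intro a ha
        change ((a : Perm Ω)⁻¹ : Perm Ω) '' B = B
        have ha' : (a : Perm Ω) '' B = B := ha
        conv_lhs => rw [← ha']
        rw [← Set.image_comp, ← Perm.coe_mul, inv_mul_cancel]
        simp }
  have hMmem : ∀ s : S, s ∈ M ↔ (s : Perm Ω) '' B = B := fun s => Iff.rfl
  have hMo : ∀ s : S, (s : Perm Ω) o ∈ B → s ∈ M := fun s hs => hfix s s.2 hs
  have hBorb : ∀ y ∈ B, ∃ m ∈ M, (m : Perm Ω) o = y := by
    intro y hy
    obtain ⟨s, hs, hsy⟩ := hSt o y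
    exact ⟨⟨s, hs⟩, hMo _ (show s o ∈ B by rw [hsy]; exact hy), hsy⟩
  have hMtop : M ≠ ⊤ := by
    intro h
    apply hFB
    intro y _
    obtain ⟨s, hs, hsy⟩ := hSt o y
    have h1 : (⟨s, hs⟩ : S) ∈ M := h ▸ Subgroup.mem_top _
    have h2 : s '' B = B := h1
    rw [← h2]
    exact ⟨o, hoB, hsy⟩
  have hMco : IsCoatom M := by
    refine ⟨hMtop, fun L hL => ?_⟩
    have hLM : ∀ s : S, (s : Perm Ω) o ∈ B → s ∈ L := fun s hs => hL.le (hMo s hs)
    have hone : ∀ l ∈ L, ∀ s : S, (s : Perm Ω) o = (l : Perm Ω) o → s ∈ L := by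
      intro l hl s hs
      have h1 : l⁻¹ * s ∈ L := by
        apply hLM
        change (l : Perm Ω)⁻¹ ((s : Perm Ω) o) ∈ B
        rw [hs, pinv_apply]
        exact hoB
      have h2 : l * (l⁻¹ * s) ∈ L := L.mul_mem hl h1
      rwa [mul_inv_cancel_left] at h2
    have hB'' : {y | ∃ l ∈ L, (l : Perm Ω) o = y} = Set.univ := by
      apply hbig
      · intro s hs
        by_contra hcon'
        rw [not_or, Set.not_disjoint_iff] at hcon'
        obtain ⟨h1, y, ⟨z, ⟨l, hl, rfl⟩, rfl⟩, l', hl', hl''⟩ := hcon'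
        have hsL : (⟨s, hs⟩ : S) ∈ L := by
          have h3 : (⟨s, hs⟩ : S) * l ∈ L := hone l' hl' _ hl''.symm
          have h4 := L.mul_mem h3 (L.inv_mem hl)
          rwa [mul_inv_cancel_right] at h4
        apply h1
        apply Set.Subset.antisymm
        · rintro _ ⟨_, ⟨k, hk, rfl⟩, rfl⟩
          exact ⟨_, L.mul_mem hsL hk, rfl⟩
        · rintro _ ⟨k, hk, rfl⟩
          refine ⟨_, ⟨_, L.mul_mem (L.inv_mem hsL) hk, rfl⟩, ?_⟩
          change s (s⁻¹ ((k : Perm Ω) o)) = _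
          rw [papply_inv]
      · intro y hy
        obtain ⟨m, hm, hmy⟩ := hBorb y hy
        exact ⟨m, hL.le hm, hmy⟩
      · intro h
        obtain ⟨l, hl, hlM⟩ := SetLike.exists_of_lt hL
        apply hlM
        apply hMo
        rw [h]
        exact ⟨l, hl, rfl⟩
    rw [eq_top_iff]
    intro s _
    have h5 : (s : Perm Ω) o ∈ {y | ∃ l ∈ L, (l : Perm Ω) o = y} := hB'' ▸ Set.mem_univ _
    obtain ⟨l, hl, hls⟩ := h5
    exact hone l hl s hls.symm
  have hMn : M.Normal := normal_of_coatom hp hSp (finite_closure hS) M hMco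
  obtain ⟨g, hg⟩ : ∃ g : S, g ∉ M := by
    by_contra h
    push Not at h
    exact hMtop (eq_top_iff.2 fun s _ => h s)
  have hsup : Subgroup.zpowers g ⊔ M = ⊤ := by
    apply hMco.2
    refine lt_of_le_of_ne le_sup_right ?_
    intro h
    apply hg
    rw [h]
    exact (le_sup_left : Subgroup.zpowers g ≤ _) (Subgroup.mem_zpowers g)
  have hgfin : (Subgroup.zpowers g : Set S).Finite := by
    obtain ⟨k, hk⟩ := hSp g
    have : IsOfFinOrder g := isOfFinOrder_iff_pow_eq_one.2 ⟨p ^ k, pow_pos hp.pos k, hk⟩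
    exact this.finite_zpowers
  have hcov : (Set.univ : Set Ω) ⊆ ⋃ h ∈ (Subgroup.zpowers g : Set S), (h : Perm Ω) '' B := by
    intro y _
    obtain ⟨s, hs, hsy⟩ := hSt o y
    have h1 : (⟨s, hs⟩ : S) ∈ Subgroup.zpowers g ⊔ M := hsup ▸ Subgroup.mem_top _
    obtain ⟨h, hh, m, hm, hhm⟩ := Subgroup.mem_sup_of_normal_right.1 h1
    refine Set.mem_biUnion hh ⟨(m : Perm Ω) o, ?_, ?_⟩
    · have : (m : Perm Ω) '' B = B := hm
      rw [← this]
      exact ⟨o, hoB, rfl⟩
    · rw [← hsy]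
      have h2 : ((h * m : S) : Perm Ω) = s := congrArg Subtype.val hhm
      rw [← h2]
      rfl
  have : (Set.univ : Set Ω).Finite := (hgfin.biUnion fun h _ => hBf.image _).subset hcov
  exact Set.infinite_univ this

end blocks

/-! ### Sylow subgroups -/

theorem exists_sylow_conj {G : Type u} [Group G] {p : ℕ} (hp : p.Prime) (A : Subgroup G)
    [Finite A] {U : Subgroup G} (hU : U ≤ A) (hUp : IsPGroup p U) :
    ∃ P : Subgroup G, U ≤ P ∧ P ≤ A ∧ IsPGroup p P ∧
      ∀ Q : Subgroup G, Q ≤ A → IsPGroup p Q → ∃ a ∈ A, ∀ q ∈ Q, a * q * a⁻¹ ∈ P := by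
  have : Fact p.Prime := ⟨hp⟩
  have h1 : IsPGroup p (U.subgroupOf A) := hUp.comap_subtype
  obtain ⟨P, hP⟩ := h1.exists_le_sylow
  refine ⟨(P : Subgroup A).map A.subtype, ?_, ?_, P.2.map _, ?_⟩
  · intro u hu
    exact ⟨⟨u, hU hu⟩, hP (by rw [Subgroup.mem_subgroupOf]; exact hu), rfl⟩
  · rintro _ ⟨x, _, rfl⟩
    exact x.2
  · intro Q hQ hQp
    have h2 : IsPGroup p (Q.subgroupOf A) := hQp.comap_subtype
    obtain ⟨P', hP'⟩ := h2.exists_le_sylow
    obtain ⟨a, ha⟩ := MulAction.exists_smul_eq A P' P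
    refine ⟨a, a.2, fun q hq => ?_⟩
    have hq' : (⟨q, hQ hq⟩ : A) ∈ (P' : Subgroup A) :=
      hP' (by rw [Subgroup.mem_subgroupOf]; exact hq)
    have h3 := Subgroup.smul_mem_pointwise_smul _ (MulAut.conj a) _ hq'
    rw [← Sylow.coe_subgroup_smul, ha] at h3
    exact ⟨_, h3, rfl⟩

section key

variable {Ω : Type u}

theorem exists_restr {s : Perm Ω} {Δ : Set Ω} (hs : s '' Δ = Δ) :
    ∃ u ∈ supp Δ, ∀ x ∈ Δ, u x = s x := by
  classical
  have h : ∀ x, s x ∈ Δ ↔ x ∈ Δ := by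
    intro x
    constructor
    · intro h
      rw [← hs] at h
      obtain ⟨y, hy, hyx⟩ := h
      exact s.injective hyx ▸ hy
    · intro h
      rw [← hs]
      exact ⟨x, h, rfl⟩
  refine ⟨Perm.ofSubtype (p := fun x => x ∈ Δ) (s.subtypePerm h), fun x hx => ?_, fun x hx => ?_⟩
  · exact Perm.ofSubtype_apply_of_not_mem _ hx
  · rw [Perm.ofSubtype_apply_of_mem (p := fun x => x ∈ Δ) _ hx]
    rfl

theorem conj_eq {s u x : Perm Ω} {Δ : Set Ω} (hs : s '' Δ = Δ) (hu : u ∈ supp Δ)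
    (hus : ∀ y ∈ Δ, u y = s y) (hx : x ∈ supp Δ) : u * x * u⁻¹ = s * x * s⁻¹ := by
  ext y
  simp only [Perm.mul_apply]
  by_cases hy : y ∈ Δ
  · have h1 : u⁻¹ y ∈ Δ := supp_apply_mem (Subgroup.inv_mem _ hu) hy
    have h2 : u⁻¹ y = s⁻¹ y := by
      have h3 := hus _ h1
      rw [papply_inv] at h3
      rw [eq_comm, Perm.inv_eq_iff_eq, ← h3]
    rw [← h2, hus _ (supp_apply_mem hx h1)]
  · have h1 : u⁻¹ y = y := Subgroup.inv_mem _ hu y hy
    have h2 : s⁻¹ y ∉ Δ := by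
      intro h
      apply hy
      rw [← hs]
      exact ⟨_, h, papply_inv _ _⟩
    rw [h1, hx y hy, hu y hy, hx _ h2, papply_inv]

/-- The main step. -/
theorem key {p : ℕ} (hp : p.Prime) {G S : Subgroup (Perm Ω)} (hSG : S ≤ G) (hSp : IsPGroup p S)
    (hmax : ∀ T : Subgroup (Perm Ω), T ≤ G → IsPGroup p T → S ≤ T → T = S) (hSt : Transitive S)
    {Δ : Set Ω} (hΔ : Δ.Finite) (hΔn : Δ.Nonempty) (hΔb : IsBlock S Δ)
    {X : Subgroup (Perm Ω)} (hXG : X ≤ G) (hXΔ : X ≤ supp Δ)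
    (hXn : ∀ s ∈ S, s '' Δ = Δ → ∀ x ∈ X, s * x * s⁻¹ ∈ X)
    {T : Subgroup (Perm Ω)} (hTX : T ≤ X) (hTp : IsPGroup p T) (hST : S ⊓ X ≤ T) : T ≤ S := by
  classical
  have : Fact p.Prime := ⟨hp⟩
  have hsd : Finite (supp Δ) := finite_supp hΔ
  -- the restrictions of the elements of the stabiliser of `Δ` in `S`
  let U : Subgroup (Perm Ω) :=
    { carrier := {u | u ∈ supp Δ ∧ ∃ s ∈ S, ∀ x ∈ Δ, u x = s x}
      mul_mem' := by
        rintro a b ⟨ha, s, hs, hsa⟩ ⟨hb, t, ht, htb⟩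
        refine ⟨Subgroup.mul_mem _ ha hb, s * t, S.mul_mem hs ht, fun x hx => ?_⟩
        rw [Perm.mul_apply, Perm.mul_apply, ← htb x hx, hsa _ (supp_apply_mem hb hx)]
      one_mem' := ⟨Subgroup.one_mem _, 1, S.one_mem, fun _ _ => rfl⟩
      inv_mem' := by
        rintro a ⟨ha, s, hs, hsa⟩
        refine ⟨Subgroup.inv_mem _ ha, s⁻¹, S.inv_mem hs, fun x hx => ?_⟩
        have h1 : a⁻¹ x ∈ Δ := supp_apply_mem (Subgroup.inv_mem _ ha) hx
        have h2 := hsa _ h1
        rw [papply_inv] at h2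
        rw [eq_comm, Perm.inv_eq_iff_eq, ← h2] }
  have hUmem : ∀ u, u ∈ U ↔ u ∈ supp Δ ∧ ∃ s ∈ S, ∀ x ∈ Δ, u x = s x := fun u => Iff.rfl
  have hUΔ : U ≤ supp Δ := fun u hu => hu.1
  have hUst : ∀ u ∈ U, ∃ s ∈ S, s '' Δ = Δ ∧ ∀ x ∈ Δ, u x = s x := by
    rintro u ⟨hu, s, hs, hsu⟩
    refine ⟨s, hs, ?_, hsu⟩
    rcases hΔb s hs with h | h
    · exact h
    · obtain ⟨x, hx⟩ := hΔn
      refine absurd (supp_apply_mem hu hx) ?_
      rw [hsu x hx]
      exact Set.disjoint_left.1 h ⟨x, hx, rfl⟩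
  have hUp : IsPGroup p U := by
    rintro ⟨u, hu⟩
    obtain ⟨s, hs, hsu⟩ := hu.2
    obtain ⟨k, hk⟩ := hSp ⟨s, hs⟩
    refine ⟨k, Subtype.ext ?_⟩
    have hk' : s ^ p ^ k = 1 := congrArg Subtype.val hk
    have h1 : ∀ n : ℕ, ∀ x ∈ Δ, (u ^ n) x = (s ^ n) x := by
      intro n
      induction n with
      | zero => intro x _; rfl
      | succ n ih =>
        intro x hx
        rw [pow_succ, pow_succ, Perm.mul_apply, Perm.mul_apply, ih _ (supp_apply_mem hu.1 hx),
          hsu x hx]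
    change u ^ p ^ k = 1
    ext x
    by_cases hx : x ∈ Δ
    · rw [h1 _ x hx, hk']
    · rw [Subgroup.pow_mem _ hu.1 _ x hx]
      rfl
  have hUX : ∀ u ∈ U, ∀ x ∈ X, u * x * u⁻¹ ∈ X := by
    intro u hu x hx
    obtain ⟨s, hs, hsΔ, hsu⟩ := hUst u hu
    rw [conj_eq hsΔ hu.1 hsu (hXΔ hx)]
    exact hXn s hs hsΔ x hx
  have hUN : U ≤ Subgroup.normalizer (X : Set (Perm Ω)) := by
    intro u hu
    rw [Subgroup.mem_normalizer_iff]
    intro x
    refine ⟨fun hx => hUX u hu x hx, fun hx => ?_⟩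
    have h1 := hUX _ (U.inv_mem hu) _ hx
    have h2 : u⁻¹ * (u * x * u⁻¹) * u⁻¹⁻¹ = x := by group
    rwa [h2] at h1
  have hAN : X ⊔ U ≤ Subgroup.normalizer (X : Set (Perm Ω)) := sup_le Subgroup.le_normalizer hUN
  have hAΔ : X ⊔ U ≤ supp Δ := sup_le hXΔ hUΔ
  have hAfin : Finite (X ⊔ U : Subgroup (Perm Ω)) :=
    Finite.of_injective _ (Subgroup.inclusion_injective hAΔ)
  obtain ⟨P, hUP, hPA, hPp, hPc⟩ := exists_sylow_conj hp (X ⊔ U) le_sup_right hUp
  have hPfin : Finite P := Finite.of_injective _ (Subgroup.inclusion_injective hPA)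
  -- the intersection of `P` with `X` is normalised by the stabiliser of `Δ`
  have hP0 : ∀ s ∈ S, s '' Δ = Δ → ∀ q ∈ P ⊓ X, s * q * s⁻¹ ∈ P ⊓ X := by
    intro s hs hsΔ q hq
    obtain ⟨u, hu, hus⟩ := exists_restr hsΔ
    have huU : u ∈ U := ⟨hu, s, hs, hus⟩
    rw [← conj_eq hsΔ hu hus (hXΔ hq.2)]
    exact ⟨P.mul_mem (P.mul_mem (hUP huU) hq.1) (P.inv_mem (hUP huU)), hUX u huU q hq.2⟩
  have hqΔ : ∀ q ∈ P ⊓ X, ∀ x ∈ Δ, q x ∈ Δ := fun q hq x hx => supp_apply_mem (hXΔ hq.2) hx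
  -- the base group
  let R : Subgroup (Perm Ω) :=
    { carrier := {r | r ∈ G ∧ ∀ s ∈ S, ∃ q ∈ P ⊓ X, ∀ x ∈ Δ, r (s x) = s (q x)}
      mul_mem' := by
        rintro a b ⟨ha, ha'⟩ ⟨hb, hb'⟩
        refine ⟨G.mul_mem ha hb, fun s hs => ?_⟩
        obtain ⟨q, hq, hqa⟩ := ha' s hs
        obtain ⟨q', hq', hqb⟩ := hb' s hs
        refine ⟨q * q', Subgroup.mul_mem _ hq hq', fun x hx => ?_⟩
        rw [Perm.mul_apply, Perm.mul_apply, hqb x hx, hqa _ (hqΔ q' hq' x hx)]
      one_mem' := ⟨G.one_mem, fun s _ => ⟨1, Subgroup.one_mem _, fun _ _ => rfl⟩⟩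
      inv_mem' := by
        rintro a ⟨ha, ha'⟩
        refine ⟨G.inv_mem ha, fun s hs => ?_⟩
        obtain ⟨q, hq, hqa⟩ := ha' s hs
        refine ⟨q⁻¹, Subgroup.inv_mem _ hq, fun x hx => ?_⟩
        have h1 := hqa _ (hqΔ _ (Subgroup.inv_mem _ hq) x hx)
        rw [papply_inv] at h1
        rw [Perm.inv_eq_iff_eq, h1] }
  have hRmem : ∀ r, r ∈ R ↔ r ∈ G ∧ ∀ s ∈ S, ∃ q ∈ P ⊓ X, ∀ x ∈ Δ, r (s x) = s (q x) :=
    fun r => Iff.rfl
  obtain ⟨k, hk⟩ := (IsPGroup.iff_card (p := p) (G := P)).1 hPp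
  have hRp : IsPGroup p R := by
    rintro ⟨r, hr⟩
    refine ⟨k, Subtype.ext ?_⟩
    change r ^ p ^ k = 1
    ext y
    obtain ⟨x₀, hx₀⟩ := hΔn
    obtain ⟨s, hs, hsx⟩ := hSt x₀ y
    obtain ⟨q, hq, hqr⟩ := hr.2 s hs
    have h1 : ∀ n : ℕ, ∀ x ∈ Δ, (r ^ n) (s x) = s ((q ^ n) x) := by
      intro n
      induction n with
      | zero => intro x _; rfl
      | succ n ih =>
        intro x hx
        rw [pow_succ, pow_succ, Perm.mul_apply, Perm.mul_apply, hqr x hx, ih _ (hqΔ q hq x hx)]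
    have h2 : q ^ p ^ k = 1 := by
      have h3 : (⟨q, hq.1⟩ : P) ^ Nat.card P = 1 := pow_card_eq_one'
      rw [hk] at h3
      exact congrArg Subtype.val h3
    rw [← hsx, h1 _ _ hx₀, h2]
    rfl
  have hRG : R ≤ G := fun r hr => hr.1
  have hSR : ∀ t ∈ S, ∀ r ∈ R, t * r * t⁻¹ ∈ R := by
    intro t ht r hr
    refine ⟨G.mul_mem (G.mul_mem (hSG ht) hr.1) (G.inv_mem (hSG ht)), fun s hs => ?_⟩
    obtain ⟨q, hq, hqr⟩ := hr.2 (t⁻¹ * s) (S.mul_mem (S.inv_mem ht) hs)
    refine ⟨q, hq, fun x hx => ?_⟩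
    have h1 := hqr x hx
    simp only [Perm.mul_apply] at h1 ⊢
    rw [h1, papply_inv]
  have hSRN : S ≤ Subgroup.normalizer (R : Set (Perm Ω)) := by
    intro u hu
    rw [Subgroup.mem_normalizer_iff]
    intro x
    refine ⟨fun hx => hSR u hu x hx, fun hx => ?_⟩
    have h1 := hSR _ (S.inv_mem hu) _ hx
    have h2 : u⁻¹ * (u * x * u⁻¹) * u⁻¹⁻¹ = x := by group
    rwa [h2] at h1
  have hPR : P ⊓ X ≤ R := by
    intro r hr
    refine ⟨hXG hr.2, fun s hs => ?_⟩
    rcases hΔb s hs with h | h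
    · have h' : (s⁻¹ : Perm Ω) '' Δ = Δ := by
        conv_lhs => rw [← h]
        rw [← Set.image_comp, ← Perm.coe_mul, inv_mul_cancel]
        simp
      refine ⟨s⁻¹ * r * s⁻¹⁻¹, hP0 _ (S.inv_mem hs) h' r hr, fun x hx => ?_⟩
      simp only [Perm.mul_apply, inv_inv]
      rw [papply_inv]
    · exact ⟨1, Subgroup.one_mem _, fun x hx =>
        hXΔ hr.2 _ (Set.disjoint_left.1 h ⟨x, hx, rfl⟩)⟩
  have hRS : R ≤ S := by
    have h1 := hmax (S ⊔ R) (sup_le hSG hRG) (hSp.to_sup_of_normal_right' hRp hSRN) le_sup_left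
    rw [← h1]
    exact le_sup_right
  have hPS : P ⊓ X ≤ S := hPR.trans hRS
  have hPT : P ⊓ X ≤ T := fun q hq => hST ⟨hPS hq, hq.2⟩
  obtain ⟨a, ha, haT⟩ := hPc T (hTX.trans le_sup_left) hTp
  have hTfin : Finite T := Finite.of_injective _ (Subgroup.inclusion_injective (hTX.trans hXΔ))
  have hPXfin : Finite (P ⊓ X : Subgroup (Perm Ω)) :=
    Finite.of_injective _ (Subgroup.inclusion_injective (inf_le_left : P ⊓ X ≤ P))
  have hmapT : ∀ t ∈ T, a * t * a⁻¹ ∈ P ⊓ X := fun t ht =>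
    ⟨haT t ht, (Subgroup.mem_normalizer_iff.1 (hAN ha) t).1 (hTX ht)⟩
  have hcard : Nat.card T ≤ Nat.card (P ⊓ X : Subgroup (Perm Ω)) := by
    refine Nat.card_le_card_of_injective
      (fun t : T => (⟨a * t * a⁻¹, hmapT t t.2⟩ : (P ⊓ X : Subgroup (Perm Ω)))) ?_
    intro t t' htt
    have h1 := congrArg Subtype.val htt
    exact Subtype.ext (mul_left_cancel (mul_right_cancel h1))
  have hTeq : P ⊓ X = T := Subgroup.eq_of_le_of_card_ge hPT hcard
  rw [← hTeq]
  exact hPS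

end key

/-! ### the two questions -/

section main

variable {Ω : Type u}

theorem main {p : ℕ} (hp : p.Prime) {G : Subgroup (Perm Ω)} (hG : G ≤ FSym Ω)
    (S : Sylow p G) (hS : Transitive ((S : Subgroup G).map G.subtype)) {x : G} :
    ∃ Δ : Set Ω, Δ.Finite ∧ (x : Perm Ω) ∈ supp Δ ∧ ∀ X : Subgroup G,
      X ≤ (supp Δ).subgroupOf G →
      (∀ s ∈ S, (s : Perm Ω) '' Δ = Δ → ∀ x ∈ X, s * x * s⁻¹ ∈ X) →
      ∀ T : Subgroup G, T ≤ X → IsPGroup p T → (S : Subgroup G) ⊓ X ≤ T → T ≤ S := by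
  rcases isEmpty_or_nonempty Ω with hΩ | hΩ
  · refine ⟨∅, Set.finite_empty, fun y => isEmptyElim y, fun X _ _ T _ _ _ y _ => ?_⟩
    have : y = 1 := Subtype.ext (Subsingleton.elim _ _)
    rw [this]
    exact Subgroup.one_mem _
  · set S' : Subgroup (Perm Ω) := (S : Subgroup G).map G.subtype with hS'
    have hS'G : S' ≤ G := by
      rintro _ ⟨s, _, rfl⟩
      exact s.2
    have hS'p : IsPGroup p S' := S.2.map _
    obtain ⟨Δ, hΔ1, hΔ2, hΔ3, hΔ4⟩ := exists_block hp (hS'G.trans hG) hS hS'p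
      (show {y | (x : Perm Ω) y ≠ y}.Finite from hG x.2)
    refine ⟨Δ, hΔ2, fun y hy => ?_, fun X hX hXn T hT hTp hST => ?_⟩
    · by_contra hcon
      exact hy (hΔ1 hcon)
    · have hmax : ∀ T : Subgroup (Perm Ω), T ≤ G → IsPGroup p T → S' ≤ T → T = S' := by
        intro T hTG hTp hST
        have h1 : T.subgroupOf G = (S : Subgroup G) := by
          apply S.is_maximal'
          · exact hTp.comap_subtype
          · intro s hs
            rw [Subgroup.mem_subgroupOf]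
            exact hST ⟨s, hs, rfl⟩
        rw [hS', ← h1, Subgroup.subgroupOf_map_subtype, inf_eq_left.2 hTG]
      have h2 := key hp hS'G hS'p hmax hS hΔ2 hΔ3 hΔ4 (X := X.map G.subtype)
        (T := T.map G.subtype) (by rintro _ ⟨y, _, rfl⟩; exact y.2)
        (by rintro _ ⟨y, hy, rfl⟩; exact hX hy)
        (by
          rintro _ ⟨s, hs, rfl⟩ hsΔ _ ⟨y, hy, rfl⟩
          exact ⟨_, hXn s hs hsΔ y hy, rfl⟩)
        (Subgroup.map_mono hT) (hTp.map _)
        (by
          rintro _ ⟨⟨s, hs, rfl⟩, y, hy, hys⟩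
          have : y = s := Subtype.ext hys
          exact ⟨s, hST ⟨hs, this ▸ hy⟩, rfl⟩)
      intro t ht
      obtain ⟨s, hs, hst⟩ := h2 ⟨t, ht, rfl⟩
      have : s = t := Subtype.ext hst
      exact this ▸ hs

end main

end Pool.Agent.X325.SF
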